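import Pool.Agent.H49.KT.UTargets

/-!
Module OUP of the board kt2_modules (MP_5e53ef_lc): the output phase of the universal machine.
-/

namespace Pool.Agent.H47.KT

open Turing Function
open Pool.Agent.H49.KT Pool.Agent.H49.KT.Uni
open Pool.Agent.H49.KT.Uni.Tok

/-- one token `t1` in mode 1 -/
theorem b5_t1 (v : Me) (u : IO → List Bool) (z : Nw → List Tok) (hm : v.mode = 1) :
    Spec body5 (mk2 (v.sr t1) u z)
      (mk2 ((v.sr t1).sct (if v.ct == 0 then 1 else 2)) u z) 4 := by
  unfold body5
  refine Spec.ite_f (by simp) ?_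
  refine Spec.ite_t (by simp [hm]) ?_
  refine Spec.ite_t (by simp) ?_
  exact sp_load _ _ _ _

/-- one token `tc` in mode 1 -/
theorem b5_tc (v : Me) (u : IO → List Bool) (z : Nw → List Tok) (hm : v.mode = 1) :
    Spec body5 (mk2 (v.sr tc) u z)
      (mk2 ((v.sr tc).sct 0) u
        (update z .o ((if ((v.ct == 2) != v.ng) then t1 else tc) :: z .o))) 6 := by
  unfold body5
  refine Spec.ite_f (by simp) ?_
  refine Spec.ite_t (by simp [hm]) ?_
  refine Spec.ite_f (by simp) ?_
  refine Spec.mono (T₁ := 2 + 1) (Spec.seq (T₁ := 2) (s' := mk2 (v.sr tc) u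
        (update z .o ((if ((v.ct == 2) != v.ng) then t1 else tc) :: z .o))) ?_ (sp_load _ _ _ _))
    (by omega)
  cases hb : ((v.ct == 2) != v.ng)
  · refine Spec.ite_f (by simpa using hb) ?_
    exact sp_pusht _ _ _ _ _
  · refine Spec.ite_t (by simpa using hb) ?_
    exact sp_pusht _ _ _ _ _

theorem seg_t1 (u : IO → List Bool) (z : Nw → List Tok) : ∀ (n : ℕ) (v : Me), v.mode = 1 →
    v.ct ≠ 0 → ∃ v', v'.mode = 1 ∧ v'.ng = v.ng ∧ v'.ct = (if n = 0 then v.ct else 2) ∧
      Seg body5 (us n) (mk2 v u z) (mk2 v' u z) (8 * n)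
  | 0, v, h1, _ => ⟨v, h1, rfl, by simp, Seg.nil _ _⟩
  | n + 1, v, h1, h2 => by
    have hc : ((v.sr t1).sct (if v.ct == 0 then 1 else 2)).ct = 2 := by
      simp [h2]
    obtain ⟨v', a1, a2, a3, a4⟩ := seg_t1 u z n ((v.sr t1).sct (if v.ct == 0 then 1 else 2))
      (by simpa using h1) (by rw [hc]; decide)
    refine ⟨v', a1, by simpa using a2, ?_, ?_⟩
    · rw [a3, hc]; simp
    · have := Seg.cons (b5_t1 v u z h1) a4
      rw [us, List.replicate_succ]
      exact this.mono (by omega)

theorem seg_encS (u : IO → List Bool) (z : Nw → List Tok) (y : ℕ) (v : Me) (h1 : v.mode = 1)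
    (h2 : v.ct = 0) : ∃ v', v'.mode = 1 ∧ v'.ng = v.ng ∧ v'.ct = 0 ∧
      Seg body5 (encS y) (mk2 v u z)
        (mk2 v' u (update z .o ((if ((y != 0) != v.ng) then t1 else tc) :: z .o)))
        (8 * (encS y).length) := by
  have hc : ((v.sr t1).sct (if v.ct == 0 then 1 else 2)).ct = 1 := by
    simp [h2]
  obtain ⟨v', a1, a2, a3, a4⟩ := seg_t1 u z y ((v.sr t1).sct (if v.ct == 0 then 1 else 2))
    (by simpa using h1) (by rw [hc]; decide)
  have e1 := Seg.cons (b5_t1 v u z h1) a4
  have e2 := Seg.cons (b5_tc v' u z a1) (Seg.nil _ _)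
  refine ⟨(v'.sr tc).sct 0, by simpa using a1, by simpa using a2, by simp, ?_⟩
  have e3 := Seg.append e1 e2
  have e4 : encS y = t1 :: us y ++ [tc] := by
    rw [encS, List.replicate_succ]
  have hlen : (encS y).length = y + 2 := by simp [encS]
  have e5 : ((v'.ct == 2) != v'.ng) = ((y != 0) != v.ng) := by
    rw [a3, a2, hc]
    by_cases hy : y = 0
    · subst hy; simp
    · have hy' : (y != 0) = true := by simpa using hy
      rw [hy', if_neg hy]
      rfl
  rw [e5] at e3
  rw [hlen, e4]
  exact e3.mono (by omega)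

theorem seg_encW (u : IO → List Bool) : ∀ (s : List ℕ) (z : Nw → List Tok) (v : Me),
    v.mode = 1 → v.ct = 0 → ∃ v', v'.mode = 1 ∧ v'.ng = v.ng ∧
      Seg body5 (encW s) (mk2 v u z)
        (mk2 v' u (update z .o
          ((s.map (fun y => if ((y != 0) != v.ng) then t1 else tc)).reverse ++ z .o)))
        (8 * (encW s).length)
  | [], z, v, h1, h2 => ⟨v, h1, rfl, by
      simp only [List.map_nil, List.reverse_nil, List.nil_append, update_eq_self]
      exact Seg.nil _ _⟩
  | y :: s, z, v, h1, h2 => by
    obtain ⟨v', a1, a2, a3, a4⟩ := seg_encS u z y v h1 h2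
    obtain ⟨v'', b1, b2, b3⟩ := seg_encW u s
      (update z .o ((if ((y != 0) != v.ng) then t1 else tc) :: z .o)) v' a1 a3
    refine ⟨v'', b1, b2.trans a2, ?_⟩
    have e := Seg.append a4 b3
    rw [update_self, update_idem, a2] at e
    have e1 : encW (y :: s) = encS y ++ encW s := by simp [encW]
    have e2 : ((y :: s).map (fun y => if ((y != 0) != v.ng) then t1 else tc)).reverse ++ z .o =
        (s.map (fun y => if ((y != 0) != v.ng) then t1 else tc)).reverse ++
          (if ((y != 0) != v.ng) then t1 else tc) :: z .o := by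
      simp
    rw [e1, e2, List.length_append]
    exact e.mono (by omega)

/-- in mode 2 nothing changes -/
theorem seg_m2 (u : IO → List Bool) (z : Nw → List Tok) : ∀ (l : List Tok) (v : Me),
    v.mode = 2 → ∃ v', Seg body5 l (mk2 v u z) (mk2 v' u z) (8 * l.length)
  | [], v, _ => ⟨v, Seg.nil _ _⟩
  | t :: l, v, h => by
    have key : ∃ v' : Me, v'.mode = 2 ∧ Spec body5 (mk2 (v.sr t) u z) (mk2 v' u z) 4 := by
      by_cases ht : t = ts
      · refine ⟨(v.sr t).sm 2, by simp, ?_⟩
        unfold body5
        refine Spec.mono (T₁ := 3) (Spec.ite_t (by simp [ht]) ?_) (by omega)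
        refine Spec.ite_f (by simp [h]) ?_
        exact sp_smode _ _ _ _
      · refine ⟨v.sr t, by simpa using h, ?_⟩
        unfold body5
        refine Spec.mono (T₁ := 3) (Spec.ite_f (by simp [ht]) ?_) (by omega)
        refine Spec.ite_f (by simp [h]) ?_
        exact sp_skip _ _ _
    obtain ⟨v', h1, h2⟩ := key
    obtain ⟨v'', h3⟩ := seg_m2 u z l v' h1
    refine ⟨v'', (Seg.cons h2 h3).mono ?_⟩
    simp only [List.length_cons]; omega

theorem seg_encC (u : IO → List Bool) (z : Nw → List Tok) (L : List (List ℕ)) (v : Me)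
    (h : v.mode = 1) :
    ∃ v', Seg body5 (encC L) (mk2 v u z) (mk2 v' u z) (8 * (encC L).length) := by
  cases L with
  | nil => exact ⟨v, Seg.nil _ _⟩
  | cons w L =>
    have key : Spec body5 (mk2 (v.sr ts) u z) (mk2 ((v.sr ts).sm 2) u z) 3 := by
      unfold body5
      refine Spec.ite_t (by simp) ?_
      refine Spec.ite_f (by simp [h]) ?_
      exact sp_smode _ _ _ _
    obtain ⟨v'', h3⟩ := seg_m2 u z (encW w ++ encC L) ((v.sr ts).sm 2) (by simp)
    have e : encC (w :: L) = ts :: (encW w ++ encC L) := by simp [encC]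
    refine ⟨v'', ?_⟩
    rw [e]
    refine (Seg.cons key h3).mono ?_
    simp only [List.length_cons]; omega

theorem seg_o (z : Nw → List Tok) : ∀ (l : List Tok) (v : Me) (u : IO → List Bool),
    ∃ v', Seg (.push (.inl .out) (fun v => (v.r == t1 : Bool))) l (mk2 v u z)
      (mk2 v' (update u .out ((l.map (fun t => (t == t1 : Bool))).reverse ++ u .out)) z)
      (2 * l.length)
  | [], v, u => ⟨v, by
      simp only [List.map_nil, List.reverse_nil, List.nil_append, update_eq_self]
      exact Seg.nil _ _⟩
  | t :: l, v, u => by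
    obtain ⟨v', h⟩ := seg_o z l (v.sr t) (update u .out ((t == t1 : Bool) :: u .out))
    refine ⟨v', ?_⟩
    have e := Seg.cons (v := v) (t := t) (sp_pusho (v.sr t) u z
      (fun v => (v.r == t1 : Bool))) h
    rw [update_self, update_idem] at e
    have e2 : ((t :: l).map (fun t => (t == t1 : Bool))).reverse ++ u .out =
        (l.map (fun t => (t == t1 : Bool))).reverse ++ (t == t1 : Bool) :: u .out := by
      simp
    rw [e2]
    refine e.mono ?_
    simp only [List.length_cons]; omega

theorem pf_OUP : T_OUP := by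
  intro v u z s L hc ho hu
  -- first loop
  have k0 : Spec body5 (mk2 ((v.sm 0).sr ts) u (update z .cfg []))
      (mk2 ((((v.sm 0).sr ts).sm 1).sct 0) u (update z .cfg [])) 3 := by
    unfold body5
    refine Spec.ite_t (by simp) ?_
    refine Spec.ite_t (by simp) ?_
    exact sp_load _ _ _ _
  obtain ⟨v1, a1, a2, a3⟩ := seg_encW u s (update z .cfg []) ((((v.sm 0).sr ts).sm 1).sct 0)
    (by simp) (by simp)
  obtain ⟨v2, b1⟩ := seg_encC u (update (update z .cfg []) .o
          ((s.map (fun y => if ((y != 0) != ((((v.sm 0).sr ts).sm 1).sct 0).ng) then t1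
            else tc)).reverse ++ (update z .cfg []) .o)) L v1 a1
  have e1 := (Seg.cons k0 (Seg.append a3 b1))
  have eC : encC (s :: L) = ts :: (encW s ++ encC L) := by simp [encC]
  have l1 := sp_lp (y := .cfg) (z := z) (by rw [hc, eC]) e1
  have hng : ((((v.sm 0).sr ts).sm 1).sct 0).ng = v.ng := rfl
  rw [hng] at l1
  have ho' : (update z .cfg []) .o = [] := by rw [update_of_ne (by decide)]; exact ho
  rw [ho', List.append_nil] at l1
  set X : List Tok := (s.map (fun y => if ((y != 0) != v.ng) then t1 else tc)).reverse with hX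
  obtain ⟨v3, c1⟩ := seg_o (update (update (update z .cfg []) .o X) .o []) X v2 u
  have l2 := sp_lp (y := .o) (z := update (update z .cfg []) .o X) (by rw [update_self]) c1
  have hz : update (update (update z .cfg []) .o X) .o [] = update z .cfg [] := by
    rw [update_idem]
    conv_rhs => rw [← update_eq_self .o (update z .cfg [])]
    rw [ho']
  rw [hz, hu, List.append_nil] at l2
  have hout : (X.map (fun t => (t == t1 : Bool))).reverse =
      s.map (fun y => (y != 0) != v.ng) := by
    rw [hX, List.map_reverse, List.reverse_reverse, List.map_map]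
    refine List.map_congr_left fun y _ => ?_
    show ((if ((y != 0) != v.ng) = true then t1 else tc) == t1) = ((y != 0) != v.ng)
    cases ((y != 0) != v.ng) <;> rfl
  rw [hout] at l2
  obtain ⟨t, l3⟩ := sp_clr v3 (update u .out (s.map (fun y => (y != 0) != v.ng)))
    (update z .cfg []) (y := .prg)
  refine ⟨v3.sr t, ?_⟩
  have fin := Spec.seq (sp_smode v u z 0) (Spec.seq l1 (Spec.seq l2 l3))
  refine Spec.mono fin ?_
  have hXl : X.length = s.length := by simp [hX]
  have hsl : s.length ≤ (encW s).length := by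
    clear * -
    induction s with
    | nil => simp
    | cons y s ih =>
      have : encW (y :: s) = encS y ++ encW s := by simp [encW]
      rw [this, List.length_append, List.length_cons]
      have : (encS y).length = y + 2 := by simp [encS]
      omega
  rw [update_of_ne (by decide), eC, hXl]
  simp only [List.length_cons, List.length_append]
  omega

end Pool.Agent.H47.KT
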