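import Pool.Agent.H49.KT.UTargets

/-!
Module UU of the board kt2_modules (MP_5e53ef_lc): `uni` is universal.
-/

namespace Pool.Agent.H47.KT

open Turing Function
open Pool.Agent.H49.KT Pool.Agent.H49.KT.Uni

theorem outputs_mono {M : BM} {d x : List Bool} {t t' : ℕ} (h : M.Outputs d x t) (ht : t ≤ t') :
    M.Outputs d x t' := by
  obtain ⟨h⟩ := h
  exact ⟨⟨h.toEvalsTo, h.steps_le_m.trans ht⟩⟩

theorem pf_UU : T_TAB → T_MA → T_UU := by
  intro hT hM V
  obtain ⟨B, j, k, ng, C, h⟩ := hT V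
  obtain ⟨C', h'⟩ := hM B j k ng
  refine ⟨codeU B j k ng, C' * (C + 1) ^ 2, fun d x t ho => ?_⟩
  obtain ⟨T, s, L, hTC, hs, hx⟩ := h d x t ho
  have := h' d T s L hs
  rw [hx] at this
  refine outputs_mono this ?_
  rw [mul_assoc, ← mul_pow]
  refine Nat.mul_le_mul_left _ (Nat.pow_le_pow_left ?_ _)
  nlinarith [Nat.zero_le (C * d.length), Nat.zero_le C, Nat.zero_le t]

end Pool.Agent.H47.KT
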